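import Pool.Agent.R7.Horo.ST

/-!
Counting the horocycles determined by a finite set.
-/

set_option autoImplicit false

namespace Pool.Agent.R7.Horo

open Finset Pool.Agent.Helper64.Gow
open scoped Classical

/-- `p` lies on the horocycle with centre `h.1` and radius `h.2` -/
def On (p h : Pt) : Prop := h.2 = gg p h.1

lemma gg_iff {p q : Pt} (hp : 0 < p.2) (hq : 0 < q.2) {ξ : ℝ} : gg p ξ = gg q ξ ↔
    q.2 * ((p.1 - ξ) ^ 2 + p.2 ^ 2) = p.2 * ((q.1 - ξ) ^ 2 + q.2 ^ 2) := by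
  constructor
  · exact gg_eq hp hq
  · intro h
    unfold gg
    rw [div_eq_div_iff (by positivity) (by positivity)]
    linarith

/-- through two points there is a horocycle with finite centre -/
lemma exists_horo {p q : Pt} (hp : 0 < p.2) (hq : 0 < q.2) : ∃ ξ, gg p ξ = gg q ξ := by
  by_cases h : p.2 = q.2
  · refine ⟨(p.1 + q.1) / 2, ?_⟩
    unfold gg
    rw [h]
    congr 1
    ring
  · set D := p.2 * q.2 * ((p.1 - q.1) ^ 2 + (p.2 - q.2) ^ 2) with hD
    have hD0 : 0 ≤ D := by positivity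
    have hs := Real.sq_sqrt hD0
    have hne : q.2 - p.2 ≠ 0 := fun h0 => h (by linarith)
    refine ⟨(q.2 * p.1 - p.2 * q.1 + Real.sqrt D) / (q.2 - p.2), ?_⟩
    rw [gg_iff hp hq]
    set s := Real.sqrt D with hsD
    have e : (q.2 - p.2) * ((q.2 * p.1 - p.2 * q.1 + s) / (q.2 - p.2)) = q.2 * p.1 - p.2 * q.1 + s := by
      field_simp
    set ξ := (q.2 * p.1 - p.2 * q.1 + s) / (q.2 - p.2) with hξ
    have hz : (q.2 - p.2) * (q.2 * ((p.1 - ξ) ^ 2 + p.2 ^ 2) - p.2 * ((q.1 - ξ) ^ 2 + q.2 ^ 2)) = 0 := by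
      have h1 : (q.2 - p.2) * (q.2 * ((p.1 - ξ) ^ 2 + p.2 ^ 2) - p.2 * ((q.1 - ξ) ^ 2 + q.2 ^ 2)) =
          ((q.2 - p.2) * ξ - (q.2 * p.1 - p.2 * q.1)) ^ 2 - D := by
        rw [hD]; ring
      rw [h1, e, ← hs]
      ring
    rcases mul_eq_zero.1 hz with h2 | h2
    · exact absurd h2 hne
    · linarith

lemma quad_finite {A B C : ℝ} (h : A ≠ 0 ∨ B ≠ 0) : {x : ℝ | A * x ^ 2 + B * x + C = 0}.Finite := by
  have hp : (Polynomial.C A * Polynomial.X ^ 2 + Polynomial.C B * Polynomial.X + Polynomial.C C : Polynomial ℝ) ≠ 0 := by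
    intro h0
    have h1 := congrArg (fun P => Polynomial.coeff P 2) h0
    have h2 := congrArg (fun P => Polynomial.coeff P 1) h0
    simp [Polynomial.coeff_X, Polynomial.coeff_C] at h1 h2
    rcases h with h | h
    · exact h h1
    · exact h h2
  refine (Polynomial.finite_setOf_isRoot hp).subset ?_
  intro x hx
  simp only [Set.mem_setOf_eq, Polynomial.IsRoot.def, Polynomial.eval_add, Polynomial.eval_mul,
    Polynomial.eval_C, Polynomial.eval_pow, Polynomial.eval_X] at hx ⊢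
  exact hx

lemma inter_finite {p q : Pt} (hp : 0 < p.2) (hq : 0 < q.2) (hpq : p ≠ q) :
    {ξ : ℝ | gg p ξ = gg q ξ}.Finite := by
  have h1 : q.2 - p.2 ≠ 0 ∨ -2 * (q.2 * p.1 - p.2 * q.1) ≠ 0 := by
    by_contra hc
    push Not at hc
    obtain ⟨h1, h2⟩ := hc
    have h3 : p.2 = q.2 := by linarith
    rw [h3] at h2
    have h4 : q.2 * (p.1 - q.1) = 0 := by linarith
    rcases mul_eq_zero.1 h4 with h5 | h5
    · linarith
    · exact hpq (Prod.ext (by linarith) h3)
  refine (quad_finite (C := q.2 * (p.1 ^ 2 + p.2 ^ 2) - p.2 * (q.1 ^ 2 + q.2 ^ 2)) h1).subset ?_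
  intro ξ hξ
  have := gg_eq hp hq hξ
  show _ = _
  linear_combination this

/-- the horocycles with finite centre determined by `P` -/
def Hs (P : Finset Pt) : Set Pt := {h | ∃ p ∈ P, ∃ q ∈ P, p ≠ q ∧ On p h ∧ On q h}

lemma Hs_finite {P : Finset Pt} (hP : ∀ p ∈ P, 0 < p.2) : (Hs P).Finite := by
  have h1 : (⋃ x ∈ (P ×ˢ P : Finset (Pt × Pt)), if x.1 = x.2 then (∅ : Set Pt) else
      (fun ξ => (ξ, gg x.1 ξ)) '' {ξ : ℝ | gg x.1 ξ = gg x.2 ξ}).Finite := by
    refine Set.Finite.biUnion (Finset.finite_toSet _) ?_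
    intro x hx
    rw [mem_coe, mem_product] at hx
    split_ifs with h
    · exact Set.finite_empty
    · exact (inter_finite (hP _ hx.1) (hP _ hx.2) h).image _
  refine h1.subset ?_
  rintro h ⟨p, hp, q, hq, hpq, h2, h3⟩
  rw [Set.mem_iUnion₂]
  refine ⟨(p, q), mem_product.2 ⟨hp, hq⟩, ?_⟩
  simp only [if_neg hpq]
  refine ⟨h.1, ?_, ?_⟩
  · show gg p h.1 = gg q h.1
    rw [← h2, ← h3]
  · exact Prod.ext rfl h2.symm

/-- number of points on the horocycle -/
noncomputable def kk (P : Finset Pt) (h : Pt) : ℕ := (P.filter (fun p => On p h)).card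

section

variable {P H : Finset Pt}

lemma pairs_le (hP : ∀ p ∈ P, 0 < p.2) (hH : ∀ h, h ∈ H ↔ h ∈ Hs P) :
    P.card * P.card - P.card ≤ ∑ h ∈ H, kk P h * (kk P h - 1) := by
  rw [← offDiag_card]
  have h1 : P.offDiag ⊆ H.biUnion (fun h => (P.filter (fun p => On p h)).offDiag) := by
    intro x hx
    rw [mem_offDiag] at hx
    obtain ⟨a, b, c⟩ := hx
    obtain ⟨ξ, hξ⟩ := exists_horo (hP _ a) (hP _ b)
    rw [mem_biUnion]
    refine ⟨(ξ, gg x.1 ξ), ?_, ?_⟩
    · rw [hH]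
      exact ⟨x.1, a, x.2, b, c, rfl, hξ⟩
    · rw [mem_offDiag, mem_filter, mem_filter]
      exact ⟨⟨a, rfl⟩, ⟨b, hξ⟩, c⟩
  refine (card_le_card h1).trans (card_biUnion_le.trans ?_)
  apply sum_le_sum
  intro h _
  rw [offDiag_card]
  unfold kk
  rw [Nat.mul_sub, mul_one]

/-- left and right halves -/
lemma split (hP : ∀ p ∈ P, 0 < p.2) (h : Pt) :
    kk P h ≤ (P.filter (fun p => onR p h)).card + (P.filter (fun p => p.1 < h.1 ∧ On p h)).card + 1 := by
  have h1 : P.filter (fun p => On p h) ⊆ (P.filter (fun p => onR p h) ∪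
      P.filter (fun p => p.1 < h.1 ∧ On p h)) ∪ P.filter (fun p => p.1 = h.1 ∧ On p h) := by
    intro p hp
    rw [mem_filter] at hp
    rw [mem_union, mem_union, mem_filter, mem_filter, mem_filter]
    rcases lt_trichotomy p.1 h.1 with h2 | h2 | h2
    · exact Or.inl (Or.inr ⟨hp.1, h2, hp.2⟩)
    · exact Or.inr ⟨hp.1, h2, hp.2⟩
    · exact Or.inl (Or.inl ⟨hp.1, h2, hp.2⟩)
  have h2 : (P.filter (fun p => p.1 = h.1 ∧ On p h)).card ≤ 1 := by
    rw [card_le_one]
    intro a ha b hb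
    rw [mem_filter] at ha hb
    obtain ⟨a0, a1, a2⟩ := ha
    obtain ⟨b0, b1, b2⟩ := hb
    have e : ∀ p : Pt, 0 < p.2 → p.1 = h.1 → On p h → p.2 = 2 * h.2 := by
      intro p hp h3 h4
      unfold On gg at h4
      rw [h3, sub_self] at h4
      rw [h4]
      field_simp
      ring
    exact Prod.ext (by rw [a1, b1]) (by rw [e a (hP a a0) a1 a2, e b (hP b b0) b1 b2])
  have h3 := card_le_card h1
  have h4 := card_union_le (P.filter (fun p => onR p h) ∪
      P.filter (fun p => p.1 < h.1 ∧ On p h)) (P.filter (fun p => p.1 = h.1 ∧ On p h))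
  have h5 := card_union_le (P.filter (fun p => onR p h)) (P.filter (fun p => p.1 < h.1 ∧ On p h))
  unfold kk
  omega

/-- reflection -/
def rfl' (p : Pt) : Pt := (-p.1, p.2)

lemma rfl_inj : Function.Injective rfl' := by
  intro a b h
  unfold rfl' at h
  rw [Prod.mk.injEq] at h
  exact Prod.ext (by linarith [h.1]) h.2

lemma gg_rfl (p : Pt) (ξ : ℝ) : gg (rfl' p) (-ξ) = gg p ξ := by
  unfold gg rfl'
  simp only
  congr 2
  ring

lemma onR_rfl (p h : Pt) : onR (rfl' p) (rfl' h) ↔ p.1 < h.1 ∧ On p h := by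
  have e : gg (rfl' p) (rfl' h).1 = gg p h.1 := gg_rfl p h.1
  unfold onR On
  rw [e]
  unfold rfl'
  simp only [neg_lt_neg_iff]

lemma rich_R (hP : ∀ p ∈ P, 0 < p.2) {i : ℕ} (hi : 12 ≤ i) (V : Finset Pt)
    (h : ∀ v ∈ V, i ≤ (P.filter (fun p => onR p v)).card) :
    i ^ 3 * V.card ≤ 576 * P.card ^ 2 + 2 * i ^ 2 * P.card := ST_R hP hi h

lemma rich_L (hP : ∀ p ∈ P, 0 < p.2) {i : ℕ} (hi : 12 ≤ i) (V : Finset Pt)
    (h : ∀ v ∈ V, i ≤ (P.filter (fun p => p.1 < v.1 ∧ On p v)).card) :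
    i ^ 3 * V.card ≤ 576 * P.card ^ 2 + 2 * i ^ 2 * P.card := by
  have h1 := ST_R (P := P.image rfl') (V := V.image rfl') (j := i) ?_ hi ?_
  · rw [card_image_of_injective _ rfl_inj, card_image_of_injective _ rfl_inj] at h1
    exact h1
  · intro p hp
    rw [mem_image] at hp
    obtain ⟨a, ha, rfl⟩ := hp
    exact hP a ha
  · intro v hv
    rw [mem_image] at hv
    obtain ⟨w, hw, rfl⟩ := hv
    refine (h w hw).trans ?_
    rw [← card_image_of_injective _ rfl_inj]
    apply card_le_card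
    intro p hp
    rw [mem_image] at hp
    obtain ⟨a, ha, rfl⟩ := hp
    rw [mem_filter] at ha ⊢
    exact ⟨mem_image_of_mem _ ha.1, (onR_rfl a w).2 ha.2⟩

/-- the number of rich horocycles -/
lemma rich (hP : ∀ p ∈ P, 0 < p.2) {j : ℕ} (hj : 24 ≤ j) :
    j ^ 3 * (H.filter (fun h => j < kk P h)).card ≤ 9216 * P.card ^ 2 + 32 * j ^ 2 * P.card := by
  set i := (j + 1) / 2 with hi
  have hi1 : j ≤ 2 * i := by omega
  have hi2 : i ≤ j := by omega
  have hi3 : 12 ≤ i := by omega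
  set VR := H.filter (fun h => i ≤ (P.filter (fun p => onR p h)).card) with hVR
  set VL := H.filter (fun h => i ≤ (P.filter (fun p => p.1 < h.1 ∧ On p h)).card) with hVL
  have hsub : H.filter (fun h => j < kk P h) ⊆ VR ∪ VL := by
    intro h hh
    rw [mem_filter] at hh
    have := split hP h
    rw [mem_union, hVR, hVL, mem_filter, mem_filter]
    by_contra hc
    push Not at hc
    have c1 := hc.1 hh.1
    have c2 := hc.2 hh.1
    omega
  have h1 := rich_R hP hi3 VR (fun v hv => (mem_filter.1 hv).2)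
  have h2 := rich_L hP hi3 VL (fun v hv => (mem_filter.1 hv).2)
  have h3 := (card_le_card hsub).trans (card_union_le _ _)
  calc j ^ 3 * (H.filter (fun h => j < kk P h)).card ≤ (2 * i) ^ 3 * (VR.card + VL.card) :=
        Nat.mul_le_mul (Nat.pow_le_pow_left hi1 3) h3
    _ = 8 * (i ^ 3 * VR.card + i ^ 3 * VL.card) := by ring
    _ ≤ 8 * ((576 * P.card ^ 2 + 2 * i ^ 2 * P.card) + (576 * P.card ^ 2 + 2 * i ^ 2 * P.card)) :=
        Nat.mul_le_mul_left _ (Nat.add_le_add h1 h2)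
    _ = 9216 * P.card ^ 2 + 32 * i ^ 2 * P.card := by ring
    _ ≤ _ := by
      have : i ^ 2 * P.card ≤ j ^ 2 * P.card := Nat.mul_le_mul_right _ (Nat.pow_le_pow_left hi2 2)
      nlinarith

/-- layer cake -/
lemma layer {κ : ℕ} (hκ : ∀ h ∈ H, kk P h ≤ κ) :
    ∑ h ∈ H, kk P h * (kk P h - 1) = 2 * ∑ j ∈ range κ, j * (H.filter (fun h => j < kk P h)).card := by
  have h1 : ∀ h ∈ H, kk P h * (kk P h - 1) = ∑ j ∈ range κ, if j < kk P h then 2 * j else 0 := by
    intro h hh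
    rw [← sum_filter]
    have h2 : (range κ).filter (fun j => j < kk P h) = range (kk P h) := by
      ext j
      rw [mem_filter, mem_range, mem_range]
      have := hκ h hh
      constructor
      · exact fun h => h.2
      · exact fun h => ⟨by omega, h⟩
    rw [h2, ← mul_sum, mul_comm 2, sum_range_id_mul_two]
  rw [sum_congr rfl h1, sum_comm, mul_sum]
  apply sum_congr rfl
  intro j _
  rw [← sum_filter, sum_const, smul_eq_mul]
  ring

end

end Pool.Agent.R7.Horo
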