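import Pool.Agent.Helper64.Gow2

/-!
Planar graphs drawn with `x`-monotone curves (adaptation of `Pool.Agent.Helper64.Gow1` and
`Gow2`, which treat straight segments, to arbitrary continuous functions; vertices with equal
abscissae are allowed).
-/

set_option autoImplicit false

namespace Pool.Agent.R7.Horo

open Finset Pool.Agent.Helper64.Gow Pool.Agent.Helper64.Res
open scoped Classical

variable {f : Ed → ℝ → ℝ} {V : Finset Pt} {E : Finset Ed}

lemma crossing' {g g' : ℝ → ℝ} (hg : Continuous g) (hg' : Continuous g') {a b : ℝ} (hab : a < b)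
    (h1 : g a < g' a) (h2 : g' b < g b) : ∃ x, a < x ∧ x < b ∧ g x = g' x := by
  have hc : ContinuousOn (fun x => g x - g' x) (Set.Icc a b) := (hg.sub hg').continuousOn
  have := intermediate_value_Ioo hab.le hc
  obtain ⟨x, ⟨hx1, hx2⟩, hx3⟩ := this (show (0 : ℝ) ∈ Set.Ioo (g a - g' a) (g b - g' b) from
    ⟨by linarith, by linarith⟩)
  exact ⟨x, hx1, hx2, by simp only at hx3; linarith⟩

/-- planar data without the crossing condition -/
structure P0 (f : Ed → ℝ → ℝ) (V : Finset Pt) (E : Finset Ed) : Prop where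
  cont : ∀ e ∈ E, Continuous (f e)
  fl : ∀ e ∈ E, f e e.1.1 = e.1.2
  fr : ∀ e ∈ E, f e e.2.1 = e.2.2
  e1 : ∀ e ∈ E, e.1 ∈ V
  e2 : ∀ e ∈ E, e.2 ∈ V
  lt : ∀ e ∈ E, e.1.1 < e.2.1
  nv : ∀ e ∈ E, ∀ w ∈ V, e.1.1 < w.1 → w.1 < e.2.1 → w.2 ≠ f e w.1

structure P1 (f : Ed → ℝ → ℝ) (V : Finset Pt) (E : Finset Ed) : Prop extends P0 f V E where
  nc : ∀ e ∈ E, ∀ e' ∈ E, e ≠ e' → ∀ x, e.1.1 < x → x < e.2.1 → e'.1.1 < x → x < e'.2.1 →
    f e x ≠ f e' x

/-- `e` is the upper edge at its left end -/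
def TRf (f : Ed → ℝ → ℝ) (E : Finset Ed) (e : Ed) : Prop :=
  ∀ e' ∈ E, e'.1 = e.1 → f e' ((e.1.1 + min e.2.1 e'.2.1) / 2) ≤ f e ((e.1.1 + min e.2.1 e'.2.1) / 2)
/-- `e` is the upper edge at its right end -/
def TLf (f : Ed → ℝ → ℝ) (E : Finset Ed) (e : Ed) : Prop :=
  ∀ e' ∈ E, e'.2 = e.2 → f e' ((e.2.1 + max e.1.1 e'.1.1) / 2) ≤ f e ((e.2.1 + max e.1.1 e'.1.1) / 2)
/-- `e` is the first edge below `w` -/
def BWf (f : Ed → ℝ → ℝ) (V : Finset Pt) (E : Finset Ed) (e : Ed) (w : Pt) : Prop :=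
  w ∈ V ∧ e.1.1 < w.1 ∧ w.1 < e.2.1 ∧ f e w.1 < w.2 ∧
    ∀ e'' ∈ E, e''.1.1 < w.1 → w.1 < e''.2.1 → f e w.1 < f e'' w.1 → w.2 ≤ f e'' w.1

lemma P1.cr (h : P1 f V E) {e e' : Ed} (he : e ∈ E) (he' : e' ∈ E) {a b : ℝ} (hab : a < b)
    (ha : e.1.1 ≤ a) (ha' : e'.1.1 ≤ a) (hb : b ≤ e.2.1) (hb' : b ≤ e'.2.1)
    (h1 : f e a < f e' a) : f e b ≤ f e' b := by
  by_contra hcon
  push Not at hcon
  obtain ⟨x, hx1, hx2, hx3⟩ := crossing' (h.cont e he) (h.cont e' he') hab h1 hcon
  have hne : e ≠ e' := by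
    rintro rfl
    exact absurd h1 (lt_irrefl _)
  exact h.nc e he e' he' hne x (by linarith) (by linarith) (by linarith) (by linarith) hx3

/-- the order of two edges does not change -/
lemma P1.ord (h : P1 f V E) {e g : Ed} (he : e ∈ E) (hg : g ∈ E) {x y : ℝ}
    (x1 : e.1.1 < x) (x2 : x < e.2.1) (x3 : g.1.1 < x) (x4 : x < g.2.1)
    (y1 : e.1.1 < y) (y2 : y < e.2.1) (y3 : g.1.1 < y) (y4 : y < g.2.1)
    (hx : f e x < f g x) : f e y < f g y := by
  have hne : e ≠ g := by
    rintro rfl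
    exact absurd hx (lt_irrefl _)
  rcases lt_trichotomy x y with hxy | hxy | hxy
  · exact lt_of_le_of_ne (h.cr he hg hxy x1.le x3.le y2.le y4.le hx)
      (h.nc e he g hg hne y y1 y2 y3 y4)
  · rw [← hxy]; exact hx
  · by_contra hcon
    push Not at hcon
    have h1 := lt_of_le_of_ne hcon (h.nc e he g hg hne y y1 y2 y3 y4).symm
    have := h.cr hg he hxy y3.le y1.le x4.le x2.le h1
    linarith

lemma P1.cover (h : P1 f V E) {e : Ed} (he : e ∈ E) (hTR : ¬ TRf f E e) :
    TLf f E e ∨ ∃ w, BWf f V E e w := by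
  unfold TRf at hTR
  push Not at hTR
  obtain ⟨e0, he0, h01, h02⟩ := hTR
  have hlt := h.lt e he
  -- a common abscissa
  set EU := E.filter (fun g => g.1 = e.1) with hEU
  have heU : e ∈ EU := mem_filter.2 ⟨he, rfl⟩
  obtain ⟨gm, hgm, hgmin⟩ := exists_min_image EU (fun g => g.2.1) ⟨e, heU⟩
  have hgm' := mem_filter.1 hgm
  have hgl : e.1.1 < gm.2.1 := by
    have := h.lt gm hgm'.1
    rw [hgm'.2] at this
    exact this
  set x0 := (e.1.1 + gm.2.1) / 2 with hx0
  have hx0l : e.1.1 < x0 := by rw [hx0]; linarith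
  have hx0r : ∀ g ∈ EU, x0 < g.2.1 := by
    intro g hg
    have := hgmin g hg
    rw [hx0]; linarith
  have hordU : ∀ g ∈ EU, ∀ g' ∈ EU, ∀ x, e.1.1 < x → x < g.2.1 → x < g'.2.1 → f g x < f g' x →
      f g x0 < f g' x0 := by
    intro g hg g' hg' x hx1 hx2 hx3 hx4
    have a := mem_filter.1 hg
    have b := mem_filter.1 hg'
    exact h.ord a.1 b.1 (x := x) (y := x0) (by rw [a.2]; exact hx1) hx2 (by rw [b.2]; exact hx1) hx3
      (by rw [a.2]; exact hx0l) (hx0r g hg) (by rw [b.2]; exact hx0l) (hx0r g' hg') hx4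
  have hordU' : ∀ g ∈ EU, ∀ g' ∈ EU, ∀ x, e.1.1 < x → x < g.2.1 → x < g'.2.1 → f g x0 < f g' x0 →
      f g x < f g' x := by
    intro g hg g' hg' x hx1 hx2 hx3 hx4
    have a := mem_filter.1 hg
    have b := mem_filter.1 hg'
    exact h.ord a.1 b.1 (x := x0) (y := x) (by rw [a.2]; exact hx0l) (hx0r g hg)
      (by rw [b.2]; exact hx0l) (hx0r g' hg') (by rw [a.2]; exact hx1) hx2 (by rw [b.2]; exact hx1) hx3 hx4
  have he0U : e0 ∈ EU := mem_filter.2 ⟨he0, h01⟩
  have he0x : f e x0 < f e0 x0 := by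
    have l0 := h.lt e0 he0
    rw [h01] at l0
    have m1 := min_le_left e.2.1 e0.2.1
    have m2 := min_le_right e.2.1 e0.2.1
    have m3 : e.1.1 < min e.2.1 e0.2.1 := lt_min hlt l0
    exact hordU e heU e0 he0U _ (by linarith) (by linarith) (by linarith) h02
  -- the next edge above
  obtain ⟨e', he', hmin⟩ := exists_min_image (EU.filter (fun g => f e x0 < f g x0)) (fun g => f g x0)
    ⟨e0, mem_filter.2 ⟨he0U, he0x⟩⟩
  rw [mem_filter] at he'
  obtain ⟨he'U, h12⟩ := he'
  obtain ⟨he', h11⟩ := mem_filter.1 he'U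
  have hlt' := h.lt e' he'
  have hu : e'.1.1 = e.1.1 := by rw [h11]
  have hee' : e ≠ e' := by
    rintro h0
    rw [← h0] at h12
    exact lt_irrefl _ h12
  have hfu : f e' e.1.1 = e.1.2 := by
    rw [← hu, h.fl e' he', h11]
  have hfe : f e e.1.1 = e.1.2 := h.fl e he
  -- above on the common part
  have hle : ∀ x, e.1.1 < x → x ≤ e.2.1 → x ≤ e'.2.1 → f e x ≤ f e' x := by
    intro x hx1 hx2 hx3
    set m := (e.1.1 + x) / 2 with hm
    have hm1 : e.1.1 < m := by rw [hm]; linarith
    have hm2 : m < x := by rw [hm]; linarith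
    have h1 := hordU' e heU e' he'U m hm1 (by linarith) (by linarith) h12
    exact h.cr he he' hm2 hm1.le (by linarith) hx2 hx3 h1
  have hltx : ∀ x, e.1.1 < x → x < e.2.1 → x < e'.2.1 → f e x < f e' x := by
    intro x hx1 hx2 hx3
    exact hordU' e heU e' he'U x hx1 hx2 hx3 h12
  -- the wedge
  set W := V.filter (fun w => e.1.1 < w.1 ∧ w.1 ≤ e.2.1 ∧ w.1 ≤ e'.2.1 ∧ f e w.1 ≤ w.2 ∧ w.2 ≤ f e' w.1) with hW
  have hWr : e.2.1 ≤ e'.2.1 → e.2 ∈ W := by
    intro h3
    refine mem_filter.2 ⟨h.e2 e he, hlt, le_rfl, h3, ?_, ?_⟩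
    · rw [h.fr e he]
    · have := hle _ hlt le_rfl h3
      rw [h.fr e he] at this
      exact this
  have hWne : W.Nonempty := by
    rcases le_total e.2.1 e'.2.1 with h3 | h3
    · exact ⟨e.2, hWr h3⟩
    · refine ⟨e'.2, mem_filter.2 ⟨h.e2 e' he', by linarith, h3, le_rfl, ?_, ?_⟩⟩
      · have := hle e'.2.1 (by linarith) h3 le_rfl
        rw [h.fr e' he'] at this
        exact this
      · rw [h.fr e' he']
  obtain ⟨w, hw, hwmin⟩ := exists_min_image W (fun w => toLex (w.1, w.2)) hWne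
  have hwmin' : ∀ w' ∈ W, w.1 < w'.1 ∨ (w.1 = w'.1 ∧ w.2 ≤ w'.2) := by
    intro w' hw'
    have := hwmin w' hw'
    rw [Prod.Lex.toLex_le_toLex] at this
    exact this
  rw [hW, mem_filter] at hw
  obtain ⟨hwV, hw1, hw2, hw3, hw4, hw5⟩ := hw
  by_cases hwe : w = e.2
  · left
    intro e'' he'' h2
    by_contra hcon
    push Not at hcon
    have hlt'' := h.lt e'' he''
    have hv : e''.2.1 = e.2.1 := by rw [h2]
    have hne'' : e'' ≠ e := by
      rintro h0
      rw [h0] at hcon
      exact lt_irrefl _ hcon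
    have hfv : f e'' e.2.1 = e.2.2 := by
      rw [← hv, h.fr e'' he'', h2]
    have hve' : e.2.1 ≤ e'.2.1 := by rw [← hwe]; exact hw3
    have hM1 := le_max_left e.1.1 e''.1.1
    have hM2 := le_max_right e.1.1 e''.1.1
    have hM3 : max e.1.1 e''.1.1 < e.2.1 := max_lt hlt (by linarith)
    set mr := (e.2.1 + max e.1.1 e''.1.1) / 2 with hmr
    have hmr1 : e.1.1 < mr := by rw [hmr]; linarith
    have hmr2 : e''.1.1 < mr := by rw [hmr]; linarith
    have hmr3 : mr < e.2.1 := by rw [hmr]; linarith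
    have hfe' : f e'' e.2.1 < f e' e.2.1 := by
      rw [hfv]
      have h5 := hle e.2.1 hlt le_rfl hve'
      rw [h.fr e he] at h5
      refine lt_of_le_of_ne h5 ?_
      rcases hve'.lt_or_eq with h6 | h6
      · exact h.nv e' he' e.2 (h.e2 e he) (by rw [hu]; exact hlt) h6
      · intro h7
        apply hee'
        apply Prod.ext h11.symm
        apply Prod.ext h6
        rw [h7, h6, h.fr e' he']
    have habove : ∀ x, e.1.1 ≤ x → e''.1.1 ≤ x → x < mr → f e x ≤ f e'' x := by
      intro x hx1 hx2 hx3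
      by_contra hc
      push Not at hc
      have := h.cr he'' he hx3 hx2 hx1 (by linarith) hmr3.le hc
      linarith
    rcases lt_or_ge e.1.1 e''.1.1 with h3 | h3
    · have h4 : f e'' e''.1.1 ≤ f e' e''.1.1 := by
        by_contra hc
        push Not at hc
        have := h.cr he' he'' (a := e''.1.1) (b := e.2.1) (by linarith) (by linarith) le_rfl hve' (by linarith) hc
        linarith
      have h5 : e''.1 ∈ W := by
        rw [hW, mem_filter]
        refine ⟨h.e1 e'' he'', h3, by linarith, by linarith, ?_, ?_⟩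
        · have := habove e''.1.1 h3.le le_rfl hmr2
          rw [h.fl e'' he''] at this
          exact this
        · rw [h.fl e'' he''] at h4
          exact h4
      rcases hwmin' _ h5 with h6 | ⟨h6, _⟩
      · rw [hwe] at h6
        linarith
      · rw [hwe] at h6
        linarith
    · have h7 := habove e.1.1 le_rfl h3 hmr1
      rw [hfe] at h7
      have h8 : e.1.2 < f e'' e.1.1 := by
        refine lt_of_le_of_ne h7 ?_
        rcases h3.lt_or_eq with h9 | h9
        · exact h.nv e'' he'' e.1 (h.e1 e he) h9 (by rw [hv]; exact hlt)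
        · intro h10
          apply hne''
          refine Prod.ext (Prod.ext h9 ?_) h2
          rw [h10, ← h9, h.fl e'' he'']
      have h9 := h.cr he' he'' (a := e.1.1) (b := e.2.1) hlt hu.le h3 hve' (by linarith) (by rw [hfu]; exact h8)
      linarith
  · right
    have hwlt : w.1 < e.2.1 := by
      rcases hw2.lt_or_eq with h3 | h3
      · exact h3
      · exfalso
        apply hwe
        rcases hwmin' _ (hWr (by rw [← h3]; exact hw3)) with h4 | ⟨h4, h5⟩
        · linarith
        · apply Prod.ext h4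
          apply le_antisymm h5
          rw [h4, h.fr e he] at hw4
          exact hw4
    have hwn := h.nv e he w hwV hw1 hwlt
    have hwgt : f e w.1 < w.2 := lt_of_le_of_ne hw4 (Ne.symm hwn)
    refine ⟨w, hwV, hw1, hwlt, hwgt, ?_⟩
    intro e'' he'' h3 h4 h5
    by_contra hcon
    push Not at hcon
    have h6 : f e'' w.1 < f e' w.1 := by linarith
    rcases lt_or_ge e.1.1 e''.1.1 with h7 | h7
    · have h8 : f e'' e''.1.1 ≤ f e' e''.1.1 := by
        by_contra hc
        push Not at hc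
        have := h.cr he' he'' (a := e''.1.1) (b := w.1) h3 (by linarith) le_rfl hw3 h4.le hc
        linarith
      have h9 : f e e''.1.1 ≤ f e'' e''.1.1 := by
        by_contra hc
        push Not at hc
        have := h.cr he'' he (a := e''.1.1) (b := w.1) h3 le_rfl h7.le h4.le hwlt.le hc
        linarith
      rw [h.fl e'' he''] at h8 h9
      have h10 : e''.1 ∈ W := by
        rw [hW, mem_filter]
        exact ⟨h.e1 e'' he'', h7, by linarith, by linarith, h9, h8⟩
      rcases hwmin' _ h10 with h11 | ⟨h11, _⟩ <;> linarith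
    · rcases lt_trichotomy (f e'' e.1.1) e.1.2 with h8 | h8 | h8
      · have := h.cr he'' he (a := e.1.1) (b := w.1) hw1 h7 le_rfl h4.le hwlt.le (by rw [hfe]; exact h8)
        linarith
      · rcases h7.lt_or_eq with h9 | h9
        · exact h.nv e'' he'' e.1 (h.e1 e he) h9 (by linarith) h8.symm
        · have h10 : e''.1 = e.1 := by
            apply Prod.ext h9
            rw [← h8, ← h9, h.fl e'' he'']
          have hU'' : e'' ∈ EU := mem_filter.2 ⟨he'', h10⟩
          have h11' := hordU e heU e'' hU'' w.1 hw1 hwlt h4 h5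
          have h12' := hmin e'' (mem_filter.2 ⟨hU'', h11'⟩)
          rcases hw3.lt_or_eq with h13 | h13
          · have := hordU e'' hU'' e' he'U w.1 hw1 h4 h13 h6
            linarith
          · -- w is at the right end of e'
            have hne2 : e'' ≠ e' := by
              rintro h0
              rw [h0] at h6
              exact lt_irrefl _ h6
            have h14 : f e' x0 < f e'' x0 := by
              refine lt_of_le_of_ne h12' ?_
              exact h.nc e' he' e'' he'' hne2.symm x0 (by rw [hu]; exact hx0l) (hx0r e' he'U)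
                (by rw [h10]; exact hx0l) (hx0r e'' hU'')
            have hx0w : x0 < w.1 := by rw [h13]; exact hx0r e' he'U
            have := h.cr he' he'' hx0w (by rw [hu]; exact hx0l.le) (by rw [h10]; exact hx0l.le) hw3 h4.le h14
            linarith
      · have := h.cr he' he'' (a := e.1.1) (b := w.1) hw1 hu.le h7 hw3 h4.le (by rw [hfu]; exact h8)
        linarith

theorem P1.card_le (h : P1 f V E) : E.card ≤ 3 * V.card := by
  have hsub : E ⊆ E.filter (fun e => TRf f E e) ∪ (E.filter (fun e => TLf f E e) ∪ E.filter (fun e => ∃ w, BWf f V E e w)) := by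
    intro e he
    by_cases h1 : TRf f E e
    · exact mem_union_left _ (mem_filter.2 ⟨he, h1⟩)
    · apply mem_union_right
      rcases h.cover he h1 with h2 | h2
      · exact mem_union_left _ (mem_filter.2 ⟨he, h2⟩)
      · exact mem_union_right _ (mem_filter.2 ⟨he, h2⟩)
  have c1 : (E.filter (fun e => TRf f E e)).card ≤ V.card := by
    apply card_le_card_of_injOn (fun e => e.1)
    · intro e he
      rw [mem_coe, mem_filter] at he
      exact h.e1 e he.1
    · intro e he e' he' hee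
      rw [mem_coe, mem_filter] at he he'
      simp only at hee
      by_contra hne
      have l1 := h.lt e he.1
      have l2 := h.lt e' he'.1
      have hu : e'.1.1 = e.1.1 := by rw [hee]
      have m1 := min_le_left e.2.1 e'.2.1
      have m2 := min_le_right e.2.1 e'.2.1
      have m3 : e.1.1 < min e.2.1 e'.2.1 := lt_min l1 (by linarith)
      have a1 := he.2 e' he'.1 hee.symm
      have a2 := he'.2 e he.1 hee
      rw [hu, min_comm e'.2.1 e.2.1] at a2
      exact h.nc e he.1 e' he'.1 hne _ (by linarith) (by linarith) (by linarith) (by linarith)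
        (le_antisymm a2 a1)
  have c2 : (E.filter (fun e => TLf f E e)).card ≤ V.card := by
    apply card_le_card_of_injOn (fun e => e.2)
    · intro e he
      rw [mem_coe, mem_filter] at he
      exact h.e2 e he.1
    · intro e he e' he' hee
      rw [mem_coe, mem_filter] at he he'
      simp only at hee
      by_contra hne
      have l1 := h.lt e he.1
      have l2 := h.lt e' he'.1
      have hu : e'.2.1 = e.2.1 := by rw [hee]
      have m1 := le_max_left e.1.1 e'.1.1
      have m2 := le_max_right e.1.1 e'.1.1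
      have m3 : max e.1.1 e'.1.1 < e.2.1 := max_lt l1 (by linarith)
      have a1 := he.2 e' he'.1 hee.symm
      have a2 := he'.2 e he.1 hee
      rw [hu, max_comm e'.1.1 e.1.1] at a2
      exact h.nc e he.1 e' he'.1 hne _ (by linarith) (by linarith) (by linarith) (by linarith)
        (le_antisymm a2 a1)
  have c3 : (E.filter (fun e => ∃ w, BWf f V E e w)).card ≤ V.card := by
    have hch : ∀ e : Ed, ∃ w : Pt, (∃ w, BWf f V E e w) → BWf f V E e w := by
      intro e
      by_cases h1 : ∃ w, BWf f V E e w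
      · obtain ⟨w, hw⟩ := h1
        exact ⟨w, fun _ => hw⟩
      · exact ⟨(0, 0), fun h2 => absurd h2 h1⟩
    choose g hg using hch
    apply card_le_card_of_injOn g
    · intro e he
      rw [mem_coe, mem_filter] at he
      exact (hg e he.2).1
    · intro e he e' he' hee
      rw [mem_coe, mem_filter] at he he'
      obtain ⟨a1, a2, a3, a4, a5⟩ := hg e he.2
      obtain ⟨b1, b2, b3, b4, b5⟩ := hg e' he'.2
      rw [← hee] at b1 b2 b3 b4 b5
      by_contra hne
      have h1 := h.nc e he.1 e' he'.1 hne (g e).1 a2 a3 b2 b3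
      rcases lt_or_gt_of_ne h1 with h2 | h2
      · have := a5 e' he'.1 b2 b3 h2
        linarith
      · have := b5 e he.1 a2 a3 h2
        linarith
  calc E.card ≤ _ := card_le_card hsub
    _ ≤ _ := card_union_le _ _
    _ ≤ (E.filter (fun e => TRf f E e)).card + ((E.filter (fun e => TLf f E e)).card + (E.filter (fun e => ∃ w, BWf f V E e w)).card) :=
        Nat.add_le_add_left (card_union_le _ _) _
    _ ≤ V.card + (V.card + V.card) := by omega
    _ = 3 * V.card := by ring

/-! ### random sampling -/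

def crsf (f : Ed → ℝ → ℝ) (e e' : Ed) : Prop :=
  e ≠ e' ∧ ∃ x, e.1.1 < x ∧ x < e.2.1 ∧ e'.1.1 < x ∧ x < e'.2.1 ∧ f e x = f e' x

noncomputable def XXf (f : Ed → ℝ → ℝ) (E : Finset Ed) : Finset (Ed × Ed) :=
  (E ×ˢ E).filter (fun q => crsf f q.1 q.2)

lemma P0.sub (h : P0 f V E) {R : Finset Pt} (hR : R ⊆ V) :
    (E.filter (fun e => e2s e ⊆ R)).card ≤ 3 * R.card + ((XXf f E).filter (fun q => x4s q ⊆ R)).card := by
  set ER := E.filter (fun e => e2s e ⊆ R) with hER
  set XR := (XXf f E).filter (fun q => x4s q ⊆ R) with hXR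
  have hmemE : ∀ e ∈ ER, e ∈ E ∧ e.1 ∈ R ∧ e.2 ∈ R := by
    intro e he
    rw [hER, mem_filter] at he
    unfold e2s at he
    exact ⟨he.1, he.2 (by simp), he.2 (by simp)⟩
  have hpg : P1 f R (ER \ XR.image Prod.fst) := by
    refine ⟨⟨?_, ?_, ?_, ?_, ?_, ?_, ?_⟩, ?_⟩
    · intro e he
      exact h.cont e (hmemE e (mem_sdiff.1 he).1).1
    · intro e he
      exact h.fl e (hmemE e (mem_sdiff.1 he).1).1
    · intro e he
      exact h.fr e (hmemE e (mem_sdiff.1 he).1).1
    · intro e he
      exact (hmemE e (mem_sdiff.1 he).1).2.1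
    · intro e he
      exact (hmemE e (mem_sdiff.1 he).1).2.2
    · intro e he
      exact h.lt e (hmemE e (mem_sdiff.1 he).1).1
    · intro e he w hw
      exact h.nv e (hmemE e (mem_sdiff.1 he).1).1 w (hR hw)
    · intro e he e' he' hne x h1 h2 h3 h4 h5
      rw [mem_sdiff] at he he'
      obtain ⟨a1, a2, a3⟩ := hmemE e he.1
      obtain ⟨b1, b2, b3⟩ := hmemE e' he'.1
      apply he.2
      rw [mem_image]
      refine ⟨(e, e'), ?_, rfl⟩
      rw [hXR, mem_filter]
      unfold XXf
      rw [mem_filter, mem_product]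
      refine ⟨⟨⟨a1, b1⟩, hne, x, h1, h2, h3, h4, h5⟩, ?_⟩
      unfold x4s
      intro p hp
      simp only [mem_insert, mem_singleton] at hp
      rcases hp with rfl | rfl | rfl | rfl <;> assumption
  have h1 := hpg.card_le
  have h2 : ER.card ≤ (ER \ XR.image Prod.fst).card + (XR.image Prod.fst).card := by
    have := card_le_card_sdiff_add_card (s := ER) (t := XR.image Prod.fst)
    omega
  have h3 : (XR.image Prod.fst).card ≤ XR.card := card_image_le
  omega

lemma P0.e2c (h : P0 f V E) {e : Ed} (he : e ∈ E) : (e2s e).card = 2 ∧ e2s e ⊆ V := by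
  have l1 := h.lt e he
  have n1 : e.1 ≠ e.2 := fun h => by rw [h] at l1; exact lt_irrefl _ l1
  unfold e2s
  refine ⟨card_pair n1, ?_⟩
  intro p hp
  simp only [mem_insert, mem_singleton] at hp
  rcases hp with rfl | rfl
  · exact h.e1 e he
  · exact h.e2 e he

lemma P0.x4 (h : P0 f V E)
    (ha : ∀ e ∈ E, ∀ e' ∈ E, crsf f e e' → e.1 ≠ e'.1 ∧ e.2 ≠ e'.2)
    {q : Ed × Ed} (hq : q ∈ XXf f E) : (x4s q).card = 4 ∧ x4s q ⊆ V := by
  unfold XXf at hq
  rw [mem_filter, mem_product] at hq
  obtain ⟨⟨he, he'⟩, hc⟩ := hq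
  obtain ⟨n5, n6⟩ := ha q.1 he q.2 he' hc
  obtain ⟨hne, x, h1, h2, h3, h4, h5⟩ := hc
  obtain ⟨e, e'⟩ := q
  simp only at *
  have l1 := h.lt e he
  have l2 := h.lt e' he'
  have n1 : e.1 ≠ e.2 := fun h => by rw [h] at l1; exact lt_irrefl _ l1
  have n2 : e'.1 ≠ e'.2 := fun h => by rw [h] at l2; exact lt_irrefl _ l2
  have n3 : e.1 ≠ e'.2 := fun h => by rw [h] at h1; linarith
  have n4 : e.2 ≠ e'.1 := fun h => by rw [h] at h2; linarith
  constructor
  · unfold x4s
    rw [card_insert_of_notMem, card_insert_of_notMem, card_insert_of_notMem, card_singleton]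
    · simpa using n2
    · simp only [mem_insert, mem_singleton, not_or]
      exact ⟨n4, n6⟩
    · simp only [mem_insert, mem_singleton, not_or]
      exact ⟨n1, n5, n3⟩
  · unfold x4s
    intro p hp
    simp only [mem_insert, mem_singleton] at hp
    rcases hp with rfl | rfl | rfl | rfl
    · exact h.e1 e he
    · exact h.e2 e he
    · exact h.e1 e' he'
    · exact h.e2 e' he'

theorem P0.cross (h : P0 f V E)
    (ha : ∀ e ∈ E, ∀ e' ∈ E, crsf f e e' → e.1 ≠ e'.1 ∧ e.2 ≠ e'.2)
    {q : ℝ} (h0 : 0 ≤ q) (h1 : q ≤ 1) :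
    q ^ 2 * E.card ≤ 3 * (q * V.card) + q ^ 4 * (XXf f E).card := by
  have key : EE V (fun _ => q) (fun R => ∑ e ∈ E, ind (e2s e) R)
      ≤ EE V (fun _ => q) (fun R => 3 * ∑ x ∈ V, ind {x} R + ∑ c ∈ XXf f E, ind (x4s c) R) := by
    apply EE_mono (fun _ _ => h0) (fun _ _ => h1)
    intro R hR
    rw [← card_filter_ind, ← cardR_eq hR, ← card_filter_ind]
    have := h.sub hR
    exact_mod_cast this
  rw [EE_sum, EE_add, EE_mul, EE_sum, EE_sum] at key
  have k1 : ∑ e ∈ E, EE V (fun _ => q) (ind (e2s e)) = q ^ 2 * E.card := by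
    rw [sum_congr rfl (fun e he => EE_ind_const (h.e2c he).2 (h.e2c he).1), sum_const, nsmul_eq_mul, mul_comm]
  have k2 : ∑ x ∈ V, EE V (fun _ => q) (ind {x}) = q * V.card := by
    rw [sum_congr rfl (fun x hx => EE_ind_const (singleton_subset_iff.2 hx) (card_singleton x)), sum_const,
      nsmul_eq_mul, pow_one, mul_comm]
  have k3 : ∑ c ∈ XXf f E, EE V (fun _ => q) (ind (x4s c)) = q ^ 4 * (XXf f E).card := by
    rw [sum_congr rfl (fun c hc => EE_ind_const (h.x4 ha hc).2 (h.x4 ha hc).1), sum_const, nsmul_eq_mul, mul_comm]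
  rw [k1, k2, k3] at key
  exact key

end Pool.Agent.R7.Horo
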