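import Pool.Agent.R7.Horo.Count

/-!
The number of horocycles with finite centre determined by `n` points is at least `c n²`.
-/

set_option autoImplicit false

namespace Pool.Agent.R7.Horo

open Finset Pool.Agent.Helper64.Gow
open scoped Classical

lemma On_eq {p h : Pt} (hp : 0 < p.2) : On p h ↔ (p.1 - h.1) ^ 2 + p.2 ^ 2 = 2 * h.2 * p.2 := by
  unfold On gg
  rw [eq_div_iff (by positivity)]
  constructor <;> intro h <;> linarith

/-- the second horocycle through two points of different heights -/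
lemma other {p q h : Pt} (hp : 0 < p.2) (hq : 0 < q.2) (hy : p.2 ≠ q.2) (h1 : On p h)
    (h2 : On q h) : ∃ ξ, ξ ≠ h.1 ∧ gg p ξ = gg q ξ := by
  have e0 : gg p h.1 = gg q h.1 := by rw [← h1, ← h2]
  have e1 := gg_eq hp hq e0
  set a := p.1 - h.1 with ha
  set b := q.1 - h.1 with hb
  have hne : q.2 - p.2 ≠ 0 := fun h0 => hy (by linarith)
  have hab : q.2 * a - p.2 * b ≠ 0 := by
    intro h0
    have h3 : q.2 * a = p.2 * b := by linarith
    have h4 : p.2 * (b ^ 2 + q.2 ^ 2) * (p.2 - q.2) = 0 := by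
      have h5 : q.2 * (q.2 * (a ^ 2 + p.2 ^ 2)) = q.2 * (p.2 * (b ^ 2 + q.2 ^ 2)) := by rw [e1]
      have h6 : (q.2 * a) ^ 2 = (p.2 * b) ^ 2 := by rw [h3]
      nlinarith
    have h7 : p.2 * (b ^ 2 + q.2 ^ 2) ≠ 0 := by positivity
    rcases mul_eq_zero.1 h4 with h8 | h8
    · exact h7 h8
    · exact hne (by linarith)
  set t := 2 * (q.2 * a - p.2 * b) / (q.2 - p.2) with ht
  have ht1 : t * (q.2 - p.2) = 2 * (q.2 * a - p.2 * b) := by rw [ht]; field_simp
  have ht0 : t ≠ 0 := by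
    rw [ht]
    exact div_ne_zero (mul_ne_zero two_ne_zero hab) hne
  refine ⟨h.1 + t, ?_, ?_⟩
  · intro h3
    exact ht0 (by linarith)
  · rw [gg_iff hp hq]
    have e2 : p.1 - (h.1 + t) = a - t := by rw [ha]; ring
    have e3 : q.1 - (h.1 + t) = b - t := by rw [hb]; ring
    rw [e2, e3]
    linear_combination e1 + t * ht1

/-- three points of different heights on two horocycles -/
lemma three {p q s h h' : Pt} (hp : 0 < p.2) (hq : 0 < q.2) (hs : 0 < s.2) (hne : h ≠ h')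
    (h1 : On p h) (h2 : On q h) (h3 : On s h) (h1' : On p h') (h2' : On q h') (h3' : On s h')
    (hpq : p.2 ≠ q.2) (hps : p.2 ≠ s.2) (hqs : q.2 ≠ s.2) : False := by
  rw [On_eq hp] at h1 h1'
  rw [On_eq hq] at h2 h2'
  rw [On_eq hs] at h3 h3'
  set d := h'.1 - h.1 with hd
  set ρ := h.2 - h'.2 with hρ
  have hd0 : d ≠ 0 := by
    intro h0
    have e1 : h'.1 = h.1 := by linarith
    rw [e1] at h1'
    have e2 : (h.2 - h'.2) * p.2 = 0 := by linarith
    rcases mul_eq_zero.1 e2 with e3 | e3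
    · exact hne (Prod.ext e1.symm (by linarith))
    · linarith
  have key : ∀ z : Pt, (z.1 - h.1) ^ 2 + z.2 ^ 2 = 2 * h.2 * z.2 →
      (z.1 - h'.1) ^ 2 + z.2 ^ 2 = 2 * h'.2 * z.2 →
      4 * (ρ ^ 2 + d ^ 2) * z.2 ^ 2 + (4 * ρ * d ^ 2 - 8 * d ^ 2 * h.2) * z.2 + d ^ 4 = 0 := by
    intro z a1 a2
    have a3 : 2 * d * (z.1 - h.1) = 2 * ρ * z.2 + d ^ 2 := by
      rw [hd, hρ]
      linear_combination a1 - a2
    have a4 : (2 * d * (z.1 - h.1)) ^ 2 = (2 * ρ * z.2 + d ^ 2) ^ 2 := by rw [a3]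
    linear_combination (4 * d ^ 2) * a1 - a4
  have k1 := key p h1 h1'
  have k2 := key q h2 h2'
  have k3 := key s h3 h3'
  have m1 : 4 * (ρ ^ 2 + d ^ 2) * (p.2 + q.2) + (4 * ρ * d ^ 2 - 8 * d ^ 2 * h.2) = 0 := by
    have : (p.2 - q.2) * (4 * (ρ ^ 2 + d ^ 2) * (p.2 + q.2) + (4 * ρ * d ^ 2 - 8 * d ^ 2 * h.2)) = 0 := by
      linear_combination k1 - k2
    rcases mul_eq_zero.1 this with h0 | h0
    · exact absurd (by linarith) hpq
    · exact h0
  have m2 : 4 * (ρ ^ 2 + d ^ 2) * (p.2 + s.2) + (4 * ρ * d ^ 2 - 8 * d ^ 2 * h.2) = 0 := by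
    have : (p.2 - s.2) * (4 * (ρ ^ 2 + d ^ 2) * (p.2 + s.2) + (4 * ρ * d ^ 2 - 8 * d ^ 2 * h.2)) = 0 := by
      linear_combination k1 - k3
    rcases mul_eq_zero.1 this with h0 | h0
    · exact absurd (by linarith) hps
    · exact h0
  have m3 : (4 * (ρ ^ 2 + d ^ 2)) * (q.2 - s.2) = 0 := by linear_combination m1 - m2
  rcases mul_eq_zero.1 m3 with h0 | h0
  · have : 0 < d ^ 2 := by positivity
    have : 0 ≤ ρ ^ 2 := sq_nonneg _
    linarith
  · exact hqs (by linarith)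

section

variable {P H : Finset Pt}

lemma many_pairs (hP : ∀ p ∈ P, 0 < p.2) (hH : ∀ h, h ∈ H ↔ h ∈ Hs P) {h0 : Pt} {T : Finset Pt}
    (hT : T ⊆ P) (hTO : ∀ p ∈ T, On p h0) (hTy : ∀ p ∈ T, ∀ q ∈ T, p ≠ q → p.2 ≠ q.2) :
    T.card * (T.card - 1) ≤ 2 * H.card := by
  have hex : ∀ x : Pt × Pt, ∃ h : Pt, x ∈ T.offDiag → h ∈ H ∧ h ≠ h0 ∧ On x.1 h ∧ On x.2 h := by
    intro x
    by_cases hx : x ∈ T.offDiag
    · have hx' := mem_offDiag.1 hx
      obtain ⟨ξ, h1, h2⟩ := other (hP _ (hT hx'.1)) (hP _ (hT hx'.2.1)) (hTy _ hx'.1 _ hx'.2.1 hx'.2.2)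
        (hTO _ hx'.1) (hTO _ hx'.2.1)
      refine ⟨(ξ, gg x.1 ξ), fun _ => ⟨?_, ?_, rfl, h2⟩⟩
      · rw [hH]
        exact ⟨x.1, hT hx'.1, x.2, hT hx'.2.1, hx'.2.2, rfl, h2⟩
      · intro h3
        exact h1 (by rw [← h3])
    · exact ⟨h0, fun h => absurd h hx⟩
  choose φ hφ using hex
  have h1 : T.offDiag.card ≤ 2 * (T.offDiag.image φ).card := by
    apply card_le_mul_card_image
    intro a ha
    obtain ⟨y, hy, rfl⟩ := mem_image.1 ha
    obtain ⟨-, hne, -, -⟩ := hφ y hy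
    set A := T.filter (fun p => On p (φ y)) with hA
    have hA2 : A.card ≤ 2 := by
      by_contra hc
      push Not at hc
      obtain ⟨p, hp, q, hq, s, hs, hpq, hps, hqs⟩ := two_lt_card.1 hc
      rw [hA, mem_filter] at hp hq hs
      exact three (hP _ (hT hp.1)) (hP _ (hT hq.1)) (hP _ (hT hs.1)) hne.symm (hTO _ hp.1)
        (hTO _ hq.1) (hTO _ hs.1) hp.2 hq.2 hs.2 (hTy _ hp.1 _ hq.1 hpq) (hTy _ hp.1 _ hs.1 hps)
        (hTy _ hq.1 _ hs.1 hqs)
    have hsub : T.offDiag.filter (fun x => φ x = φ y) ⊆ A.offDiag := by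
      intro x hx
      rw [mem_filter] at hx
      obtain ⟨hx1, hx2⟩ := hx
      obtain ⟨-, -, c, d⟩ := hφ x hx1
      rw [hx2] at c d
      have hx' := mem_offDiag.1 hx1
      rw [mem_offDiag, hA, mem_filter, mem_filter]
      exact ⟨⟨hx'.1, c⟩, ⟨hx'.2.1, d⟩, hx'.2.2⟩
    refine (card_le_card hsub).trans ?_
    rw [offDiag_card]
    have : A.card = 0 ∨ A.card = 1 ∨ A.card = 2 := by omega
    rcases this with h | h | h <;> rw [h]
    · norm_num
    · norm_num
  have h2 : (T.offDiag.image φ).card ≤ H.card := by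
    apply card_le_card
    intro a ha
    obtain ⟨y, hy, rfl⟩ := mem_image.1 ha
    exact (hφ y hy).1
  rw [offDiag_card] at h1
  rw [Nat.mul_sub, mul_one]
  omega

lemma rich_case (hP : ∀ p ∈ P, 0 < p.2) (hH : ∀ h, h ∈ H ↔ h ∈ Hs P) {h0 : Pt} {s : ℕ}
    (hs : 2 * s ≤ kk P h0) : (s - 1) * (s - 2) ≤ 2 * H.card := by
  have h1 := split hP h0
  set R := P.filter (fun p => onR p h0) with hR
  set L := P.filter (fun p => p.1 < h0.1 ∧ On p h0) with hL
  have mono : ∀ c : ℕ, s - 1 ≤ c → (s - 1) * (s - 2) ≤ c * (c - 1) := by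
    intro c hc
    exact Nat.mul_le_mul hc (by omega)
  rcases (by omega : s - 1 ≤ R.card ∨ s - 1 ≤ L.card) with h2 | h2
  · refine (mono _ h2).trans (many_pairs hP hH (filter_subset _ _) (h0 := h0) ?_ ?_)
    · intro p hp
      exact (mem_filter.1 hp).2.2
    · intro p hp q hq hpq hy
      obtain ⟨p0, p1, p2⟩ := mem_filter.1 hp
      obtain ⟨q0, q1, q2⟩ := mem_filter.1 hq
      have a1 := (On_eq (hP _ p0)).1 p2
      have a2 := (On_eq (hP _ q0)).1 q2
      rw [hy] at a1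
      have a3 : (p.1 - h0.1) ^ 2 = (q.1 - h0.1) ^ 2 := by linarith
      have a4 := (sq_eq_sq₀ (by linarith : (0:ℝ) ≤ p.1 - h0.1) (by linarith : (0:ℝ) ≤ q.1 - h0.1)).1 a3
      exact hpq (Prod.ext (by linarith) hy)
  · refine (mono _ h2).trans (many_pairs hP hH (filter_subset _ _) (h0 := h0) ?_ ?_)
    · intro p hp
      exact (mem_filter.1 hp).2.2
    · intro p hp q hq hpq hy
      obtain ⟨p0, p1, p2⟩ := mem_filter.1 hp
      obtain ⟨q0, q1, q2⟩ := mem_filter.1 hq
      have a1 := (On_eq (hP _ p0)).1 p2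
      have a2 := (On_eq (hP _ q0)).1 q2
      rw [hy] at a1
      have a3 : (h0.1 - p.1) ^ 2 = (h0.1 - q.1) ^ 2 := by linarith
      have a4 := (sq_eq_sq₀ (by linarith : (0:ℝ) ≤ h0.1 - p.1) (by linarith : (0:ℝ) ≤ h0.1 - q.1)).1 a3
      exact hpq (Prod.ext (by linarith) hy)

/-- no very rich horocycle -/
lemma poor_case (hP : ∀ p ∈ P, 0 < p.2) (hH : ∀ h, h ∈ H ↔ h ∈ Hs P) {κ J : ℕ} (hJ : 24 ≤ J)
    (hκ : ∀ h ∈ H, kk P h ≤ κ) :
    ((P.card * P.card - P.card : ℕ) : ℝ) ≤ 2 * (J * (J + 1)) * H.card + 18432 * (P.card : ℝ) ^ 2 / J +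
      64 * P.card * κ := by
  have h1 := pairs_le hP hH
  rw [layer hκ] at h1
  set n := P.card with hn
  have hJR : (0 : ℝ) < J := by
    have : 0 < J := by omega
    exact_mod_cast this
  have h2 : ((∑ j ∈ range κ, j * (H.filter (fun h => j < kk P h)).card : ℕ) : ℝ) ≤
      J * (J + 1) * H.card + 9216 * (n : ℝ) ^ 2 / J + 32 * n * κ := by
    push_cast
    have hb : ∀ j ∈ range κ, (j : ℝ) * ((H.filter (fun h => j < kk P h)).card : ℝ) ≤
        (if j ≤ J then (J : ℝ) * H.card else 0) + (if J < j then 9216 * (n : ℝ) ^ 2 * ((j : ℝ) ^ 2)⁻¹ else 0)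
          + 32 * n := by
      intro j _
      rcases le_or_gt j J with h3 | h3
      · rw [if_pos h3, if_neg (by omega)]
        have h4 : (j : ℝ) * ((H.filter (fun h => j < kk P h)).card : ℝ) ≤ J * H.card := by
          apply mul_le_mul (by exact_mod_cast h3) (by exact_mod_cast card_filter_le _ _) (by positivity) (by positivity)
        have : (0 : ℝ) ≤ 32 * n := by positivity
        linarith
      · rw [if_neg (by omega), if_pos h3]
        have h4 := rich (H := H) hP (j := j) (by omega)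
        have hj : (0 : ℝ) < j := by
          have : 0 < j := by omega
          exact_mod_cast this
        have h5 : (j : ℝ) ^ 3 * ((H.filter (fun h => j < kk P h)).card : ℝ) ≤
            9216 * (n : ℝ) ^ 2 + 32 * (j : ℝ) ^ 2 * n := by exact_mod_cast h4
        have h6 : (j : ℝ) * ((H.filter (fun h => j < kk P h)).card : ℝ) =
            ((j : ℝ) ^ 2)⁻¹ * ((j : ℝ) ^ 3 * ((H.filter (fun h => j < kk P h)).card : ℝ)) := by
          field_simp
        rw [h6]
        have h7 : ((j : ℝ) ^ 2)⁻¹ * (9216 * (n : ℝ) ^ 2 + 32 * (j : ℝ) ^ 2 * n) =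
            0 + 9216 * (n : ℝ) ^ 2 * ((j : ℝ) ^ 2)⁻¹ + 32 * n := by
          field_simp
          ring
        rw [← h7]
        exact mul_le_mul_of_nonneg_left h5 (by positivity)
    refine (sum_le_sum hb).trans ?_
    rw [sum_add_distrib, sum_add_distrib, ← sum_filter, ← sum_filter, sum_const, sum_const, card_range,
      nsmul_eq_mul, nsmul_eq_mul]
    have c1 : (((range κ).filter (fun j => j ≤ J)).card : ℝ) ≤ J + 1 := by
      have : ((range κ).filter (fun j => j ≤ J)).card ≤ (range (J + 1)).card := by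
        apply card_le_card
        intro j hj
        rw [mem_filter] at hj
        rw [mem_range]
        omega
      rw [card_range] at this
      exact_mod_cast this
    have c2 : ∑ j ∈ (range κ).filter (fun j => J < j), 9216 * (n : ℝ) ^ 2 * ((j : ℝ) ^ 2)⁻¹ ≤
        9216 * (n : ℝ) ^ 2 / J := by
      rw [← mul_sum, div_eq_mul_inv]
      apply mul_le_mul_of_nonneg_left _ (by positivity)
      rcases le_or_gt κ J with h3 | h3
      · have : (range κ).filter (fun j => J < j) = ∅ := by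
          apply filter_eq_empty_iff.2
          intro j hj
          rw [mem_range] at hj
          omega
        rw [this, sum_empty]
        positivity
      · have h4 : ∑ j ∈ (range κ).filter (fun j => J < j), ((j : ℝ) ^ 2)⁻¹ ≤ ∑ j ∈ Ioc J κ, ((j : ℝ) ^ 2)⁻¹ := by
          apply sum_le_sum_of_subset_of_nonneg
          · intro j hj
            rw [mem_filter, mem_range] at hj
            rw [mem_Ioc]
            omega
          · intro j _ _
            positivity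
        have h5 := sum_Ioc_inv_sq_le_sub (α := ℝ) (k := J) (n := κ) (by omega) h3.le
        have h6 : (0 : ℝ) ≤ (κ : ℝ)⁻¹ := by positivity
        linarith
    have c3 : (((range κ).filter (fun j => j ≤ J)).card : ℝ) * (J * H.card) ≤ J * (J + 1) * H.card := by
      calc (((range κ).filter (fun j => j ≤ J)).card : ℝ) * (J * H.card) ≤ (J + 1) * (J * H.card) :=
            mul_le_mul_of_nonneg_right c1 (by positivity)
        _ = _ := by ring
    have c4 : (κ : ℝ) * (32 * n) = 32 * n * κ := by ring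
    linarith
  have h3 : ((n * n - n : ℕ) : ℝ) ≤ ((2 * ∑ j ∈ range κ, j * (H.filter (fun h => j < kk P h)).card : ℕ) : ℝ) := by
    exact_mod_cast h1
  rw [Nat.cast_mul, Nat.cast_ofNat] at h3
  have e1 : 18432 * (n : ℝ) ^ 2 / J = 2 * (9216 * (n : ℝ) ^ 2 / J) := by ring
  rw [e1]
  linarith

/-- **The lower bound.** -/
theorem main_count (hP : ∀ p ∈ P, 0 < p.2) (hH : ∀ h, h ∈ H ↔ h ∈ Hs P) (hn : 2 ≤ P.card) :
    P.card ^ 2 ≤ 5 * 10 ^ 10 * H.card := by
  -- at least one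
  have hpos : 1 ≤ H.card := by
    obtain ⟨p, hp, q, hq, hpq⟩ := one_lt_card.1 (show 1 < P.card by omega)
    obtain ⟨ξ, hξ⟩ := exists_horo (hP _ hp) (hP _ hq)
    apply card_pos.2
    exact ⟨(ξ, gg p ξ), (hH _).2 ⟨p, hp, q, hq, hpq, rfl, hξ⟩⟩
  set n := P.card with hnn
  rcases lt_or_ge n 4096 with hsmall | hlarge
  · have : n ^ 2 ≤ 4096 ^ 2 := Nat.pow_le_pow_left hsmall.le 2
    omega
  by_cases hrich : ∀ h ∈ H, kk P h ≤ n / 256
  · have h1 := poor_case hP hH (J := 73728) (by norm_num) hrich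
    rw [← hnn] at h1
    have hnR : (4096 : ℝ) ≤ n := by exact_mod_cast hlarge
    have h2 : ((n / 256 : ℕ) : ℝ) ≤ n / 256 := Nat.cast_div_le
    have h3 : ((n * n - n : ℕ) : ℝ) = (n : ℝ) * n - n := by
      rw [Nat.cast_sub (by nlinarith)]
      push_cast
      ring
    rw [h3] at h1
    have h4 : 64 * (n : ℝ) * ((n / 256 : ℕ) : ℝ) ≤ 64 * n * (n / 256) :=
      mul_le_mul_of_nonneg_left h2 (by positivity)
    push_cast at h1 h4
    have h5 : (n : ℝ) ^ 2 ≤ 5 * 10 ^ 10 * H.card := by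
      have hc : (0 : ℝ) ≤ H.card := by positivity
      nlinarith
    exact_mod_cast h5
  · push Not at hrich
    obtain ⟨h0, -, h1⟩ := hrich
    have h2 := rich_case hP hH (h0 := h0) (s := n / 512) (by omega)
    have h3 : n / 1024 * (n / 1024) ≤ (n / 512 - 1) * (n / 512 - 2) := Nat.mul_le_mul (by omega) (by omega)
    have h4 : n ≤ 2048 * (n / 1024) := by omega
    have h5 : n ^ 2 ≤ (2048 * (n / 1024)) ^ 2 := Nat.pow_le_pow_left h4 2
    calc n ^ 2 ≤ (2048 * (n / 1024)) ^ 2 := h5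
      _ = 4194304 * (n / 1024 * (n / 1024)) := by ring
      _ ≤ 4194304 * (2 * H.card) := Nat.mul_le_mul_left _ (h3.trans h2)
      _ ≤ _ := by omega

end

end Pool.Agent.R7.Horo
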