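import Pool.Agent.R7.Horo.PG

/-!
Incidences between points of the upper half-plane and horocycles (circles tangent to the real
line): a Szemerédi–Trotter bound for the points on the right half of the horocycles.
-/

set_option autoImplicit false

namespace Pool.Agent.R7.Horo

open Finset Pool.Agent.Helper64.Gow Pool.Agent.Helper64.Res
open scoped Classical

/-- the Euclidean radius of the horocycle with centre `ξ` through `p` -/
noncomputable def gg (p : Pt) (ξ : ℝ) : ℝ := ((p.1 - ξ) ^ 2 + p.2 ^ 2) / (2 * p.2)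

/-- `p` lies on the right half of the horocycle with centre `h.1` and radius `h.2` -/
def onR (p h : Pt) : Prop := h.1 < p.1 ∧ h.2 = gg p h.1

lemma gg_cont (p : Pt) : Continuous (gg p) := by
  unfold gg
  exact (((continuous_const.sub continuous_id).pow 2).add continuous_const).div_const _

lemma gg_eq {p q : Pt} (hp : 0 < p.2) (hq : 0 < q.2) {ξ : ℝ} (h : gg p ξ = gg q ξ) :
    q.2 * ((p.1 - ξ) ^ 2 + p.2 ^ 2) = p.2 * ((q.1 - ξ) ^ 2 + q.2 ^ 2) := by
  unfold gg at h
  rw [div_eq_div_iff (by positivity) (by positivity)] at h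
  linarith

lemma once_aux {a b y z t : ℝ} (ha : 0 < a) (hb : 0 < b) (hy : 0 < y) (hyz : y < z) (ht : 0 < t)
    (h1 : z * (a ^ 2 + y ^ 2) = y * (b ^ 2 + z ^ 2)) (h3 : z * (2 * a + t) = y * (2 * b + t)) :
    False := by
  have hz : 0 < z := hy.trans hyz
  have e1 : z * a < y * b := by
    have : 0 < t * (z - y) := mul_pos ht (by linarith)
    nlinarith
  have e2 : a < b := by
    by_contra hc
    push Not at hc
    have : y * b ≤ z * a := mul_le_mul hyz.le hc hb.le hz.le
    linarith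
  have e3 : y * b ^ 2 < z * a ^ 2 := by
    have : 0 < y * z * (z - y) := mul_pos (mul_pos hy hz) (by linarith)
    nlinarith
  have e4 : z * a ^ 2 < y * b ^ 2 := by
    calc z * a ^ 2 = (z * a) * a := by ring
      _ < (y * b) * a := mul_lt_mul_of_pos_right e1 ha
      _ < (y * b) * b := mul_lt_mul_of_pos_left e2 (mul_pos hy hb)
      _ = y * b ^ 2 := by ring
  linarith

/-- two points are on the right half of at most one common horocycle -/
lemma once {p q : Pt} (hp : 0 < p.2) (hq : 0 < q.2) (hpq : p ≠ q) {ξ η : ℝ} (h : ξ < η)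
    (h1 : η < p.1) (h2 : η < q.1) (e1 : gg p ξ = gg q ξ) (e2 : gg p η = gg q η) : False := by
  have f1 := gg_eq hp hq e1
  have f2 := gg_eq hp hq e2
  have g3 : q.2 * (2 * (p.1 - η) + (η - ξ)) = p.2 * (2 * (q.1 - η) + (η - ξ)) := by
    have h0 : (η - ξ) * (q.2 * (2 * (p.1 - η) + (η - ξ))) = (η - ξ) * (p.2 * (2 * (q.1 - η) + (η - ξ))) := by
      linear_combination f1 - f2
    exact mul_left_cancel₀ (by linarith) h0
  rcases lt_trichotomy p.2 q.2 with h4 | h4 | h4
  · exact once_aux (a := p.1 - η) (b := q.1 - η) (by linarith) (by linarith) hp h4 (t := η - ξ) (by linarith) f2 g3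
  · apply hpq
    rw [h4] at g3
    have h5 := mul_left_cancel₀ hq.ne' g3
    exact Prod.ext (by linarith) h4
  · exact once_aux (a := q.1 - η) (b := p.1 - η) (by linarith) (by linarith) hq h4 (t := η - ξ) (by linarith) f2.symm g3.symm

/-- consecutive horocycles for the point `p` -/
def Cons (V : Finset Pt) (e : Ed) (p : Pt) : Prop :=
  onR p e.1 ∧ onR p e.2 ∧ ∀ w ∈ V, onR p w → e.1.1 < w.1 → e.2.1 ≤ w.1

noncomputable def cons (V P : Finset Pt) : Finset Ed :=
  (V ×ˢ V).filter (fun e => e.1.1 < e.2.1 ∧ ∃ p ∈ P, Cons V e p)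

noncomputable def cv (V P : Finset Pt) (e : Ed) : Pt :=
  if h : ∃ p ∈ P, Cons V e p then h.choose else (0, 1)

variable {V P : Finset Pt}

lemma cv_spec {e : Ed} (he : e ∈ cons V P) : cv V P e ∈ P ∧ Cons V e (cv V P e) := by
  unfold cons at he
  rw [mem_filter] at he
  have h := he.2.2
  unfold cv
  rw [dif_pos h]
  exact h.choose_spec

lemma cons_lt {e : Ed} (he : e ∈ cons V P) : e.1.1 < e.2.1 := (mem_filter.1 he).2.1

lemma cons_V {e : Ed} (he : e ∈ cons V P) : e.1 ∈ V ∧ e.2 ∈ V := by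
  have := (mem_filter.1 he).1
  rw [mem_product] at this
  exact this

noncomputable def ff (V P : Finset Pt) (e : Ed) : ℝ → ℝ := gg (cv V P e)

lemma cons_P0 : P0 (ff V P) V (cons V P) := by
  refine ⟨?_, ?_, ?_, ?_, ?_, ?_, ?_⟩
  · intro e _
    exact gg_cont _
  · intro e he
    exact (cv_spec he).2.1.2.symm
  · intro e he
    exact (cv_spec he).2.2.1.2.symm
  · intro e he
    exact (cons_V he).1
  · intro e he
    exact (cons_V he).2
  · intro e he
    exact cons_lt he
  · intro e he w hw h1 h2 h3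
    obtain ⟨_, _, b, c⟩ := cv_spec he
    have hR : onR (cv V P e) w := ⟨h2.trans b.1, h3⟩
    have := c w hw hR h1
    linarith

lemma cons_same' {e g : Ed} (he : e ∈ cons V P) (hg : g ∈ cons V P)
    (hl : cv V P e = cv V P g) {x : ℝ} (h1 : e.1.1 < x) (h2 : x < e.2.1) (h3 : g.1.1 < x)
    (h4 : x < g.2.1) : e = g := by
  obtain ⟨_, a1, a2, a3⟩ := cv_spec he
  obtain ⟨_, b1, b2, b3⟩ := cv_spec hg
  rw [← hl] at b1 b2 b3
  have e1 : e.1 = g.1 := by
    have hx : e.1.1 = g.1.1 := by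
      rcases lt_trichotomy e.1.1 g.1.1 with h | h | h
      · have := a3 g.1 (cons_V hg).1 b1 h
        linarith
      · exact h
      · have := b3 e.1 (cons_V he).1 a1 h
        linarith
    exact Prod.ext hx (by rw [a1.2, b1.2, hx])
  have e2 : e.2 = g.2 := by
    have hx : e.2.1 = g.2.1 := by
      apply le_antisymm
      · exact a3 g.2 (cons_V hg).2 b2 (by rw [e1]; exact cons_lt hg)
      · exact b3 e.2 (cons_V he).2 a2 (by rw [← e1]; exact cons_lt he)
    exact Prod.ext hx (by rw [a2.2, b2.2, hx])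
  exact Prod.ext e1 e2

lemma cons_adj (hP : ∀ p ∈ P, 0 < p.2) : ∀ e ∈ cons V P, ∀ e' ∈ cons V P,
    crsf (ff V P) e e' → e.1 ≠ e'.1 ∧ e.2 ≠ e'.2 := by
  intro e he e' he' ⟨hne, x, h1, h2, h3, h4, h5⟩
  obtain ⟨a0, a1, a2, a3⟩ := cv_spec he
  obtain ⟨b0, b1, b2, b3⟩ := cv_spec he'
  have hpq : cv V P e ≠ cv V P e' := fun h => hne (cons_same' he he' h h1 h2 h3 h4)
  unfold ff at h5
  constructor
  · intro h6
    refine once (hP _ a0) (hP _ b0) hpq h1 (h2.trans a2.1) (h4.trans b2.1) ?_ h5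
    rw [← a1.2, h6, ← b1.2]
  · intro h6
    refine once (hP _ a0) (hP _ b0) hpq h2 a2.1 (by rw [h6]; exact b2.1) h5 ?_
    rw [← a2.2, h6, ← b2.2]

lemma cons_cross' (hP : ∀ p ∈ P, 0 < p.2) : (XXf (ff V P) (cons V P)).card ≤ P.card ^ 2 := by
  rw [sq, ← card_product]
  apply card_le_card_of_injOn (fun q => (cv V P q.1, cv V P q.2))
  · intro q hq
    rw [mem_coe] at hq
    unfold XXf at hq
    rw [mem_filter, mem_product] at hq
    rw [mem_coe, mem_product]
    exact ⟨(cv_spec hq.1.1).1, (cv_spec hq.1.2).1⟩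
  · intro q hq r hr hqr
    rw [mem_coe] at hq hr
    unfold XXf at hq hr
    rw [mem_filter, mem_product] at hq hr
    obtain ⟨⟨q1, q2⟩, qne, x, x1, x2, x3, x4, x5⟩ := hq
    obtain ⟨⟨r1, r2⟩, rne, y, y1, y2, y3, y4, y5⟩ := hr
    simp only [Prod.mk.injEq] at hqr
    obtain ⟨l1, l2⟩ := hqr
    obtain ⟨a0, a1, a2, a3⟩ := cv_spec q1
    obtain ⟨b0, b1, b2, b3⟩ := cv_spec q2
    obtain ⟨c0, c1, c2, c3⟩ := cv_spec r1
    obtain ⟨d0, d1, d2, d3⟩ := cv_spec r2
    have hl : cv V P q.1 ≠ cv V P q.2 := by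
      intro h
      exact qne (cons_same' q1 q2 h x1 x2 x3 x4)
    unfold ff at x5 y5
    rw [← l1] at c2 y5
    rw [← l2] at d2 y5
    have hxy : x = y := by
      rcases lt_trichotomy x y with h | h | h
      · exact (once (hP _ a0) (hP _ b0) hl h (y2.trans c2.1) (y4.trans d2.1) x5 y5).elim
      · exact h
      · exact (once (hP _ a0) (hP _ b0) hl h (x2.trans a2.1) (x4.trans b2.1) y5 x5).elim
    rw [← hxy] at y1 y2 y3 y4
    exact Prod.ext (cons_same' q1 r1 l1 x1 x2 y1 y2) (cons_same' q2 r2 l2 x3 x4 y3 y4)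

lemma cons_fiber' (hP : ∀ p ∈ P, 0 < p.2) {p : Pt} (hp : p ∈ P) :
    (V.filter (fun h => onR p h)).card ≤ ((cons V P).filter (fun e => cv V P e = p)).card + 1 := by
  set S := V.filter (fun h => onR p h) with hS
  rcases S.eq_empty_or_nonempty with h0 | h0
  · rw [h0]; simp
  obtain ⟨m, hm, hmax⟩ := exists_max_image S (fun p => p.1) h0
  have hsub : S.erase m ⊆ ((cons V P).filter (fun e => cv V P e = p)).image Prod.fst := by
    intro u hu
    rw [mem_erase] at hu
    obtain ⟨hum, huS⟩ := hu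
    have huV := (mem_filter.1 huS).1
    have hmV := (mem_filter.1 hm).1
    have huR := (mem_filter.1 huS).2
    have hmR := (mem_filter.1 hm).2
    have hlt : u.1 < m.1 := by
      rcases (hmax u huS).lt_or_eq with h | h
      · exact h
      · exact absurd (Prod.ext h (by rw [huR.2, hmR.2, h])) hum
    obtain ⟨v, hv, hvmin⟩ := exists_min_image (S.filter (fun p => u.1 < p.1)) (fun p => p.1)
      ⟨m, mem_filter.2 ⟨hm, hlt⟩⟩
    rw [mem_filter] at hv
    obtain ⟨hvS, huv⟩ := hv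
    have hvV := (mem_filter.1 hvS).1
    have hvR := (mem_filter.1 hvS).2
    have hC : Cons V (u, v) p := by
      refine ⟨huR, hvR, ?_⟩
      intro w hw hon hlt2
      exact hvmin w (mem_filter.2 ⟨mem_filter.2 ⟨hw, hon⟩, hlt2⟩)
    have hmem : (u, v) ∈ cons V P := by
      unfold cons
      rw [mem_filter, mem_product]
      exact ⟨⟨huV, hvV⟩, huv, p, hp, hC⟩
    rw [mem_image]
    refine ⟨(u, v), ?_, rfl⟩
    rw [mem_filter]
    refine ⟨hmem, ?_⟩
    by_contra hne
    obtain ⟨a0, a1, a2, a3⟩ := cv_spec hmem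
    simp only at a1 a2
    refine once (hP _ a0) (hP _ hp) hne huv a2.1 hvR.1 ?_ ?_
    · rw [← a1.2, ← huR.2]
    · rw [← a2.2, ← hvR.2]
  have h1 := card_le_card hsub
  have h2 : (((cons V P).filter (fun e => cv V P e = p)).image Prod.fst).card ≤ _ := card_image_le
  rw [card_erase_of_mem hm] at h1
  have h3 : 0 < S.card := card_pos.2 h0
  omega

lemma cons_card' (hP : ∀ p ∈ P, 0 < p.2) :
    ∑ v ∈ V, (P.filter (fun p => onR p v)).card ≤ (cons V P).card + P.card := by
  have h1 : (cons V P).card = ∑ p ∈ P, ((cons V P).filter (fun e => cv V P e = p)).card :=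
    card_eq_sum_card_fiberwise (fun e he => (cv_spec (mem_coe.1 he)).1)
  have h2 : ∑ v ∈ V, (P.filter (fun p => onR p v)).card = ∑ p ∈ P, (V.filter (fun v => onR p v)).card := by
    simp only [card_filter]
    exact sum_comm
  rw [h1, h2, card_eq_sum_ones P, ← sum_add_distrib]
  exact sum_le_sum fun p hp => cons_fiber' hP hp

/-- **Few rich horocycles** (points on the right half). -/
theorem ST_R (hP : ∀ p ∈ P, 0 < p.2) {j : ℕ} (hj : 12 ≤ j)
    (h : ∀ v ∈ V, j ≤ (P.filter (fun p => onR p v)).card) :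
    j ^ 3 * V.card ≤ 576 * P.card ^ 2 + 2 * j ^ 2 * P.card := by
  have h1 : j * V.card ≤ (cons V P).card + P.card := by
    refine le_trans ?_ (cons_card' hP)
    rw [mul_comm, ← smul_eq_mul, ← sum_const]
    exact sum_le_sum h
  rcases le_or_gt (j * V.card) (2 * P.card) with h2 | h2
  · calc j ^ 3 * V.card = j ^ 2 * (j * V.card) := by ring
      _ ≤ j ^ 2 * (2 * P.card) := Nat.mul_le_mul_left _ h2
      _ ≤ _ := by nlinarith [Nat.zero_le (576 * P.card ^ 2)]
  · have hX := cons_cross' (V := V) hP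
    have hc := (cons_P0 (V := V) (P := P)).cross (cons_adj hP) (q := 12 / (j : ℝ)) (by positivity)
      (by rw [div_le_one (by positivity)]; exact_mod_cast hj)
    set E := (cons V P).card with hE
    set v := V.card with hv
    set n := P.card with hn
    have hjR : (0 : ℝ) < j := by
      have : 0 < j := by omega
      exact_mod_cast this
    have hE2 : (j : ℝ) * v ≤ 2 * E := by
      have : j * v ≤ 2 * E := by omega
      exact_mod_cast this
    have hXR : ((XXf (ff V P) (cons V P)).card : ℝ) ≤ (n : ℝ) ^ 2 := by exact_mod_cast hX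
    have h3 : (12 / (j : ℝ)) ^ 2 * (j * v / 2) ≤ 3 * (12 / (j : ℝ) * v) + (12 / (j : ℝ)) ^ 4 * (n : ℝ) ^ 2 := by
      calc (12 / (j : ℝ)) ^ 2 * (j * v / 2) ≤ (12 / (j : ℝ)) ^ 2 * E :=
            mul_le_mul_of_nonneg_left (by linarith) (by positivity)
        _ ≤ _ := hc
        _ ≤ _ := by
          have : (12 / (j : ℝ)) ^ 4 * ((XXf (ff V P) (cons V P)).card : ℝ) ≤ (12 / (j : ℝ)) ^ 4 * (n : ℝ) ^ 2 :=
            mul_le_mul_of_nonneg_left hXR (by positivity)
          linarith
    have e1 : (12 / (j : ℝ)) ^ 2 * (j * v / 2) = 72 * v / j := by field_simp; ring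
    have e2 : 3 * (12 / (j : ℝ) * v) = 36 * v / j := by ring
    have e3 : (12 / (j : ℝ)) ^ 4 * (n : ℝ) ^ 2 = 20736 * n ^ 2 / j ^ 4 := by field_simp; ring
    rw [e1, e2, e3] at h3
    have h4 : 36 * (v : ℝ) / j ≤ 20736 * n ^ 2 / j ^ 4 := by
      have : 72 * (v : ℝ) / j = 36 * v / j + 36 * v / j := by ring
      linarith
    rw [div_le_div_iff₀ hjR (by positivity)] at h4
    have h5 : (j : ℝ) ^ 3 * v ≤ 576 * n ^ 2 := by
      have h6 : (36 * (j : ℝ)) * ((j : ℝ) ^ 3 * v) ≤ (36 * (j : ℝ)) * (576 * n ^ 2) := by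
        have a1 : (36 * (j : ℝ)) * ((j : ℝ) ^ 3 * v) = 36 * (v : ℝ) * j ^ 4 := by ring
        have a2 : (36 * (j : ℝ)) * (576 * (n : ℝ) ^ 2) = 20736 * n ^ 2 * j := by ring
        rw [a1, a2]
        exact h4
      exact le_of_mul_le_mul_left h6 (by positivity)
    have h7 : j ^ 3 * v ≤ 576 * n ^ 2 := by exact_mod_cast h5
    exact h7.trans (Nat.le_add_right _ _)

end Pool.Agent.R7.Horo
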